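import Pool.Agent.Helper15.WA.LocDefs
import Pool.Agent.Helper10.GWA.LB
import Pool.Agent.Helper37.GWA.RSD

/-!
# GWA SIGA: the involution near the nodes `(0, 0)` and `(T, T)`
-/

namespace GWA

section SIG

variable {K : Type} [NormedField K] [Algebra GaussianInt K] {π : GaussianInt}

omit [Algebra GaussianInt K] in
theorem siga_sS (x : K) : sS x (2 - x) = 3 := by unfold sS; ring

omit [Algebra GaussianInt K] in
theorem siga_sD (x : K) : sD x (2 - x) = -3 * (x - 1) ^ 2 := by unfold sD; ring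

omit [Algebra GaussianInt K] in
theorem siga_sQ (x : K) : sQ x (2 - x) = 9 * (x - 1) ^ 2 := by unfold sQ; ring

/-- norms: `|x - a| = |x|` for `|a| ≤ 1 < |x|` -/
theorem LocHyp.norm_sub_large (h : LocHyp K π) {x a : K} (hx : 1 < ‖x‖) (ha : ‖a‖ ≤ 1) :
    ‖x - a‖ = ‖x‖ := by
  rw [sub_eq_add_neg]
  apply h.norm_sum_eq
  rw [norm_neg]
  linarith

variable [NeZero (2 : K)] [DecidableEq K]

omit [DecidableEq K] in
/-- the basic pair -/
theorem LocHyp.siga_core (h : LocHyp K π) (hodd : ¬ π ∣ 2) (d : Kˣ) {η : E (d : K)}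
    (hη : 1 < ‖nx η‖) : ∃ η' P Q : E (d : K), η' ≠ 0 ∧ P ≠ 0 ∧ Q ≠ 0 ∧
      nx η' = 2 - nx η ∧ nx P = 1 + 2 / (nx η - 1) ∧ nx Q = 1 - 2 / (nx η - 1) ∧
      SRel ⟨d, η, η'⟩ ⟨d, P, Q⟩ := by
  have := h.char0
  have hd := d.ne_zero
  set x := nx η with hx
  have hI := II_sq K
  have hn1 : ‖(1 : K)‖ ≤ 1 := norm_one.le
  have hn2 : ‖(2 : K)‖ ≤ 1 := h.norm_ofNat_le 2
  have hn3 : ‖(3 : K)‖ ≤ 1 := h.norm_ofNat_le 3
  have h6 : ‖(6 : K)‖ ≤ 1 := h.norm_ofNat_le 6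
  have h2n : ‖(2 : K)‖ = 1 := h.norm_two hodd
  have hx0 : x ≠ 0 := by
    intro h0
    rw [h0, norm_zero] at hη
    linarith
  have hx1 : x - 1 ≠ 0 := by
    rw [← norm_pos_iff, h.norm_sub_large hη hn1]
    linarith
  have hxp1 : x + 1 ≠ 0 := by
    have : x + 1 = x - (-1) := by ring
    rw [this, ← norm_pos_iff, h.norm_sub_large hη (by rw [norm_neg]; exact hn1)]
    linarith
  have hnp1 : ‖x + 1‖ = ‖x‖ := by
    have : x + 1 = x - (-1) := by ring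
    rw [this, h.norm_sub_large hη (by rw [norm_neg]; exact hn1)]
  have hx2 : x - 2 ≠ 0 := by
    rw [← norm_pos_iff, h.norm_sub_large hη hn2]
    linarith
  have hx3 : x - 3 ≠ 0 := by
    rw [← norm_pos_iff, h.norm_sub_large hη hn3]
    linarith
  have hfx : ff x ≠ 0 := by
    have : ff x = x * (x - 1) * (x + 1) := by unfold ff; ring
    rw [this]
    exact mul_ne_zero (mul_ne_zero hx0 hx1) hxp1
  have hfx' : ff (2 - x) ≠ 0 := by
    have : ff (2 - x) = - ((x - 1) * (x - 2) * (x - 3)) := by unfold ff; ring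
    rw [this]
    exact neg_ne_zero.2 (mul_ne_zero (mul_ne_zero hx1 hx2) hx3)
  have hsq := sq_ff_nx hd η
  rw [← hx] at hsq
  -- the square root
  obtain ⟨s, hs, -⟩ := h.sqrt (x := (x - 2) * (x - 3) / (x * (x + 1))) (by
    have h4 : ‖(4 : K)‖ = 1 := by
      have : (4 : K) = 2 * 2 := by norm_num
      rw [this, norm_mul, h2n, one_mul]
    rw [h4]
    have : (x - 2) * (x - 3) / (x * (x + 1)) - 1 = -6 * (x - 1) / (x * (x + 1)) := by
      field_simp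
      ring
    rw [this, norm_div, norm_mul, norm_mul, norm_neg, hnp1, h.norm_sub_large hη hn1,
      div_lt_one (by positivity)]
    nlinarith [norm_nonneg x])
  obtain ⟨η', k1, k2, -⟩ := exists_pt hd (x := 2 - x) (s := yc η / d * (II K * s)) (by
    rw [mul_pow, hsq, mul_pow, hI, hs]
    unfold ff
    field_simp
    ring)
  obtain ⟨P, l1, l2, -⟩ := exists_pt hd (x := 1 + 2 / (x - 1)) (s := yc η / d * (2 / (x - 1) ^ 2))
    (by
      rw [mul_pow, hsq]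
      unfold ff
      field_simp
      ring)
  obtain ⟨Q, m1, m2, -⟩ := exists_pt hd (x := 1 - 2 / (x - 1))
    (s := yc η' / d * (2 / (x - 1) ^ 2)) (by
      rw [mul_pow, sq_ff_nx hd, k2]
      unfold ff
      field_simp
      ring)
  have h3 : (3 : K) ≠ 0 := by norm_num
  have h9 : (9 : K) ≠ 0 := by norm_num
  have hrho : rho x (2 - x) = 2 / (x - 1) ^ 2 := by
    unfold rho
    rw [siga_sS, siga_sD]
    field_simp
  have key := SRel.intro (d := d) (d' := d) (P := η) (Q := η') (P' := P) (Q' := Q)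
    (by rw [← hx]; exact hfx) (by rw [k2]; exact hfx') l1 m1
    (by
      rw [k2, ← hx, siga_sD]
      exact mul_ne_zero (neg_ne_zero.2 h3) (pow_ne_zero _ hx1))
    (by rw [k2, ← hx, siga_sS]; exact h3)
    (by
      rw [k2, ← hx, siga_sQ]
      exact mul_ne_zero h9 (pow_ne_zero _ hx1))
    (by
      rw [l2, k2, ← hx]
      unfold sx
      rw [hrho]
      field_simp)
    (by
      rw [m2, k2, ← hx]
      unfold sy
      rw [hrho]
      field_simp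
      ring)
  rcases key with key | key
  · exact ⟨η', P, Q, k1, l1, m1, k2, l2, m2, key⟩
  · exact ⟨η', P, -Q, k1, l1, neg_ne m1, k2, l2, by rw [nx_neg, m2], key⟩

omit [NeZero (2 : K)] [DecidableEq K] in
theorem LocHyp.siga_level (h : LocHyp K π) {d : K} (hd : d ≠ 0) {c : ℕ} {η : E d}
    (hη : η ∈ nb π d c) (hη' : η ∉ nb π d (c + 1)) :
    1 < ‖nx η‖ ∧ ‖nx η‖⁻¹ ≤ ‖algebraMap GaussianInt K π‖ ^ (2 * c + 1) ∧
      ‖algebraMap GaussianInt K π‖ ^ (2 * (c + 1) + 1) < ‖nx η‖⁻¹ := by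
  have hp := h.norm_pi_pos
  have hp1 := h.norm_pi
  have hη0 : η ≠ 0 := by
    rintro rfl
    exact hη' (zero_mem_nbh _ _ _)
  rw [mem_nbh_iff hd] at hη hη'
  have h1 := hη.resolve_left hη0
  have h2 := not_le.1 fun h' => hη' (Or.inr h')
  rw [inv_pow] at h1 h2
  have h3 : 1 < (‖algebraMap GaussianInt K π‖ ^ (2 * c + 1))⁻¹ :=
    (one_lt_inv₀ (pow_pos hp _)).2 (pow_lt_one₀ hp.le hp1 (by omega))
  have h4 : 0 < ‖nx η‖ := by linarith
  refine ⟨by linarith, ?_, ?_⟩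
  · rw [inv_le_comm₀ h4 (pow_pos hp _)]
    exact h1
  · rw [lt_inv_comm₀ (pow_pos hp _) h4]
    exact h2

omit [NeZero (2 : K)] [DecidableEq K] in
theorem LocHyp.siga_mem (h : LocHyp K π) (d : Kˣ) {c : ℕ} {η η' : E (d : K)}
    (hη : η ∈ nb π (d : K) c) (hη0 : η ≠ 0) (hη1 : 1 < ‖nx η‖) (hx : nx η' = 2 - nx η) :
    η' ∈ nb π (d : K) c := by
  rw [mem_nbh_iff d.ne_zero] at hη ⊢
  right
  rw [hx, ← norm_neg (2 - nx η), neg_sub, h.norm_sub_large hη1 (h.norm_ofNat_le 2)]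
  exact hη.resolve_left hη0

theorem LocHyp.siga_near_T_iff (h : LocHyp K π) (hodd : ¬ π ∣ 2) {d : K} (hd : d ≠ 0) {P : E d}
    (hP : P ≠ 0) (n : ℕ) : P - T hd ∈ nb π d n ↔
      ‖nx P - 1‖ ≤ ‖algebraMap GaussianInt K π‖ ^ (2 * n + 1) := by
  have hp := h.norm_pi_pos
  have hp1 := h.norm_pi
  have h2n : ‖(2 : K)‖ = 1 := h.norm_two hodd
  by_cases hPT : P = T hd
  · rw [hPT, sub_self, nx_T, sub_self, norm_zero]
    exact ⟨fun _ => (pow_pos hp _).le, fun _ => zero_mem_nbh _ _ _⟩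
  have hx1 : nx P ≠ 1 := by
    intro h1
    apply hPT
    apply eq_T_of_xc hd hP
    rw [xc_eq hd P, h1, mul_one]
  obtain ⟨k1, k2⟩ := nx_add_T hd hP hx1
  have e1 : P - T hd = P + T hd := by rw [sub_eq_add_neg, neg_T]
  have hpos : 0 < ‖nx P - 1‖ := norm_pos_iff.2 (sub_ne_zero.2 hx1)
  have hpow : ‖algebraMap GaussianInt K π‖ ^ (2 * n + 1) < 1 := pow_lt_one₀ hp.le hp1 (by omega)
  have hpow0 : 0 < ‖algebraMap GaussianInt K π‖ ^ (2 * n + 1) := pow_pos hp _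
  have e2 : nx P + 1 = 2 + (nx P - 1) := by ring
  rw [e1, mem_nbh_iff hd, or_iff_right k1, k2, norm_div, inv_pow, le_div_iff₀ hpos,
    inv_mul_le_iff₀ hpow0]
  constructor
  · intro h1
    by_cases h3 : ‖nx P - 1‖ < 1
    · rw [e2, h.norm_sum_eq (by rw [h2n]; exact h3), h2n, mul_one] at h1
      exact h1
    · exfalso
      have h4 : ‖nx P + 1‖ ≤ ‖nx P - 1‖ := by
        rw [e2]
        refine (h.ultra _ _).trans (max_le ?_ le_rfl)
        rw [h2n]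
        exact not_lt.1 h3
      nlinarith
  · intro h1
    rw [e2, h.norm_sum_eq (by rw [h2n]; linarith), h2n, mul_one]
    exact h1

theorem LocHyp.sig_inf_inf (h : LocHyp K π) (hodd : ¬ π ∣ 2) (d : Kˣ) (c : ℕ) (η : E (d : K))
    (hη : η ∈ nb π (d : K) c) (hη' : η ∉ nb π (d : K) (c + 1)) :
    ∃ η₁ ∈ nb π (d : K) c, ∃ η₂ ∈ nb π (d : K) c,
      (η₁ ∉ nb π (d : K) (c + 1) ∨ η₂ ∉ nb π (d : K) (c + 1)) ∧
      ∃ t' ∈ (FLD K π).NNε 1 1, (FLD K π).S t' ⟨d, η₁, η₂⟩ := by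
  obtain ⟨h1, h2, h3⟩ := h.siga_level d.ne_zero hη hη'
  have hη0 : η ≠ 0 := by
    rintro rfl
    exact hη' (zero_mem_nbh _ _ _)
  obtain ⟨η₂, P, Q, k1, k2, k3, k4, k5, k6, key⟩ := h.siga_core hodd d h1
  have hn : ‖2 / (nx η - 1)‖ ≤ ‖algebraMap GaussianInt K π‖ ^ (2 * 0 + 1) := by
    rw [norm_div, h.norm_two hodd, h.norm_sub_large h1 norm_one.le, one_div]
    refine h2.trans (pow_le_pow_of_le_one h.norm_pi_pos.le h.norm_pi.le (by omega))
  refine ⟨η, hη, η₂, h.siga_mem d hη hη0 h1 k4, Or.inl hη', ⟨d, P, Q⟩, ?_, key.symm⟩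
  refine ⟨P - T d.ne_zero, ?_, Q - T d.ne_zero, ?_, ?_⟩
  · refine (h.siga_near_T_iff hodd d.ne_zero k2 0).2 ?_
    rw [k5, add_sub_cancel_left]
    exact hn
  · refine (h.siga_near_T_iff hodd d.ne_zero k3 0).2 ?_
    rw [k6, sub_sub_cancel_left, norm_neg]
    exact hn
  · show (⟨d, P, Q⟩ : (FLD K π).Sys) = ⟨d, (1 : GaussianInt) • T d.ne_zero + (P - T d.ne_zero),
      (1 : GaussianInt) • T d.ne_zero + (Q - T d.ne_zero)⟩
    rw [one_smul, add_sub_cancel, add_sub_cancel]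

theorem LocHyp.sig_T_T (h : LocHyp K π) (hodd : ¬ π ∣ 2) (d : Kˣ) (c : ℕ) (η : E (d : K))
    (hη : η ∈ nb π (d : K) c) (hη' : η ∉ nb π (d : K) (c + 1)) :
    ∃ η₁ ∈ nb π (d : K) c, ∃ η₂ ∈ nb π (d : K) c,
      (η₁ ∉ nb π (d : K) (c + 1) ∨ η₂ ∉ nb π (d : K) (c + 1)) ∧
      ∃ t' ∈ (FLD K π).NNε 0 0,
        (FLD K π).S t' ⟨d, T d.ne_zero + η₁, T d.ne_zero + η₂⟩ := by
  obtain ⟨h1, h2, h3⟩ := h.siga_level d.ne_zero hη hη'
  have hη0 : η ≠ 0 := by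
    rintro rfl
    exact hη' (zero_mem_nbh _ _ _)
  obtain ⟨η₂, P, Q, k1, k2, k3, k4, k5, k6, key⟩ := h.siga_core hodd d h1
  have hn : ‖2 / (nx η - 1)‖ = ‖nx η‖⁻¹ := by
    rw [norm_div, h.norm_two hodd, h.norm_sub_large h1 norm_one.le, one_div]
  refine ⟨P - T d.ne_zero, ?_, Q - T d.ne_zero, ?_, Or.inl ?_, ⟨d, η, η₂⟩, ?_, ?_⟩
  · refine (h.siga_near_T_iff hodd d.ne_zero k2 c).2 ?_
    rw [k5, add_sub_cancel_left, hn]
    exact h2
  · refine (h.siga_near_T_iff hodd d.ne_zero k3 c).2 ?_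
    rw [k6, sub_sub_cancel_left, norm_neg, hn]
    exact h2
  · rw [h.siga_near_T_iff hodd d.ne_zero k2 (c + 1), k5, add_sub_cancel_left, hn]
    exact not_le.2 h3
  · have ha : nb π (d : K) c ⊆ nb π (d : K) 0 := nbh_anti h.one_lt_inv.le _ (Nat.zero_le _)
    refine ⟨η, ha hη, η₂, ha (h.siga_mem d hη hη0 h1 k4), ?_⟩
    show (⟨d, η, η₂⟩ : (FLD K π).Sys) = ⟨d, (0 : GaussianInt) • T d.ne_zero + η,
      (0 : GaussianInt) • T d.ne_zero + η₂⟩
    rw [zero_smul, zero_add, zero_add]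
  · show SRel ⟨d, η, η₂⟩ ⟨d, T d.ne_zero + (P - T d.ne_zero), T d.ne_zero + (Q - T d.ne_zero)⟩
    rw [add_sub_cancel, add_sub_cancel]
    exact key

end SIG

end GWA
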